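import Pool.Agent.helper4.QX.SpecD
import Pool.Agent.helper62.QU.INV
import Pool.Agent.helper28.QU.TTT
import Pool.Agent.helper91.QU.DOB

/-!
# qd:LIQ: Lipschitz bound for the convolution of a section
-/

set_option autoImplicit false

open scoped MatrixGroups ContDiff Topology UpperHalfPlane
open UpperHalfPlane MeasureTheory ProbabilityTheory Filter Set Polynomial
open Pool.Agent.QU Pool.Agent.RP

namespace Pool.Agent.QX

theorem LIQ_lip {κ₁ : ℝ → ℝ} {C : ℝ} (h : BF κ₁ C) :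
    ∃ M : ℝ, 0 ≤ M ∧ ∀ s t : ℝ, 0 ≤ s → 0 ≤ t → |κ₁ s - κ₁ t| ≤ M * |s - t| := by
  have hc : Continuous (deriv κ₁) := h.smooth.continuous_deriv (by simp)
  obtain ⟨M, hM⟩ := (isCompact_Icc (a := (0 : ℝ)) (b := 2)).exists_bound_of_continuousOn hc.continuousOn
  have hM0 : 0 ≤ M := (norm_nonneg _).trans (hM 0 ⟨le_rfl, by norm_num⟩)
  refine ⟨M, hM0, fun s t hs ht => ?_⟩
  have hbd : ∀ x ∈ Ici (0 : ℝ), ‖deriv κ₁ x‖ ≤ M := by
    intro x hx
    rcases le_or_gt x 2 with h2 | h2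
    · exact hM x ⟨hx, h2⟩
    · have h3 : κ₁ =ᶠ[𝓝 x] fun _ => 0 := by
        filter_upwards [lt_mem_nhds (show (1 : ℝ) < x by linarith)] with y hy
        exact h.supp y hy.le
      rw [h3.deriv_eq, deriv_const, norm_zero]
      exact hM0
  have h4 := (convex_Ici (0 : ℝ)).norm_image_sub_le_of_norm_deriv_le (f := κ₁)
    (fun x _ => (h.smooth.differentiable (by simp)).differentiableAt) hbd (Set.mem_Ici.2 ht) (Set.mem_Ici.2 hs)
  exact h4

theorem LIQ_cosh (R a b : ℝ) (ha : 0 ≤ a) (ha' : a ≤ R) (hb : 0 ≤ b) (hb' : b ≤ R) :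
    |Real.cosh a - Real.cosh b| ≤ Real.sinh R * |a - b| := by
  have hbd : ∀ x ∈ Icc (0 : ℝ) R, ‖deriv Real.cosh x‖ ≤ Real.sinh R := by
    intro x hx
    rw [Real.deriv_cosh, Real.norm_of_nonneg (Real.sinh_nonneg_iff.2 hx.1)]
    exact Real.sinh_le_sinh.2 hx.2
  exact (convex_Icc (0 : ℝ) R).norm_image_sub_le_of_norm_deriv_le (f := Real.cosh)
    (fun x _ => Real.differentiable_cosh.differentiableAt) hbd ⟨hb, hb'⟩ ⟨ha, ha'⟩

open scoped Classical in
/-- bound of the difference of the kernels -/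
theorem LIQ_ker {κ₁ : ℝ → ℝ} {C : ℝ} (h : BF κ₁ C) : ∃ B R : ℝ, 0 ≤ B ∧ 0 ≤ R ∧ ∀ (η : ℝ) (z w v : ℍ), 0 < η → η ≤ 1 →
    dist z w ≤ 1 → |fm κ₁ η (tt z v) - fm κ₁ η (tt w v)| ≤ (if v ∈ Metric.closedBall z R then B / η ^ 2 * dist z w else 0) := by
  obtain ⟨M, hM0, hM⟩ := LIQ_lip h
  obtain ⟨T1, T2, -, -, -, T6, -, -⟩ := TTT
  obtain ⟨R₀, hR0, hR⟩ := T6 1
  have hsh : 0 ≤ Real.sinh (R₀ + 1) := Real.sinh_nonneg_iff.2 (by linarith)
  refine ⟨M * Real.sinh (R₀ + 1), R₀ + 1, mul_nonneg hM0 hsh, by linarith, ?_⟩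
  intro η z w v hη hη1 hzw
  have hsupp : ∀ x : ℍ, R₀ < dist x v → fm κ₁ η (tt x v) = 0 := by
    intro x hx
    have h1 : 1 < tt x v := by
      by_contra hc
      push Not at hc
      exact absurd (hR x v hc) (not_le.2 hx)
    unfold fm
    rw [h.supp _ (by rw [le_div_iff₀ hη]; linarith), zero_div]
  by_cases hz : dist z v ≤ R₀ + 1
  swap
  · have hz' : R₀ < dist z v := by linarith
    have hw' : R₀ < dist w v := by
      have := dist_triangle z w v
      linarith
    rw [hsupp z hz', hsupp w hw', sub_self, abs_zero]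
    split_ifs
    · have := dist_nonneg (x := z) (y := w)
      positivity
    · exact le_rfl
  rw [if_pos (by rw [Metric.mem_closedBall, dist_comm]; exact hz)]
  by_cases hw : dist w v ≤ R₀ + 1
  · have h1 : |fm κ₁ η (tt z v) - fm κ₁ η (tt w v)| ≤ M / η ^ 2 * |tt z v - tt w v| := by
      unfold fm
      rw [← sub_div, abs_div, abs_of_pos hη, div_le_iff₀ hη]
      refine (hM _ _ (div_nonneg (T2 z v) hη.le) (div_nonneg (T2 w v) hη.le)).trans (le_of_eq ?_)
      rw [← sub_div, abs_div, abs_of_pos hη]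
      field_simp
    have h2 : |tt z v - tt w v| ≤ Real.sinh (R₀ + 1) * dist z w := by
      rw [T1, T1]
      have e : Real.cosh (dist z v) - 1 - (Real.cosh (dist w v) - 1) = Real.cosh (dist z v) - Real.cosh (dist w v) := by ring
      rw [e]
      refine (LIQ_cosh (R₀ + 1) _ _ dist_nonneg hz dist_nonneg hw).trans ?_
      exact mul_le_mul_of_nonneg_left (abs_dist_sub_le z w v) hsh
    refine h1.trans ((mul_le_mul_of_nonneg_left h2 (by positivity)).trans (le_of_eq ?_))
    ring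
  · have hz' : R₀ < dist z v := by
      have := dist_triangle w z v
      rw [dist_comm w z] at this
      linarith
    rw [hsupp z hz', hsupp w (by linarith), sub_self, abs_zero]
    have := dist_nonneg (x := z) (y := w)
    positivity

/-- equivariance of the convolution -/
theorem LIQ_eqv {Γ : Subgroup SL(2, ℝ)} {V : Type} [NormedAddCommGroup V] [InnerProductSpace ℂ V] [CompleteSpace V]
    (ρ : Γ →* (V ≃ₗᵢ[ℂ] V)) (κ : ℝ → ℝ) (φ : ℍ → V) (hφ : ∀ (γ : Γ) (z : ℍ), φ (γ • z) = ρ γ (φ z)) (γ : Γ) (z : ℍ) :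
    conv κ φ (γ • z) = ρ γ (conv κ φ z) := by
  have h4 : conv κ (fun w => ρ γ (φ w)) z = ρ γ (conv κ φ z) := by
    unfold conv
    have h5 := (ρ γ).toLinearIsometry.integral_comp_comm (μ := volume)
      (fun w : ℍ => κ (tt z w) • φ w)
    refine Eq.trans (integral_congr_ae (Filter.Eventually.of_forall fun w => ?_)) h5
    show κ (tt z w) • ρ γ (φ w) = ρ γ (κ (tt z w) • φ w)
    rw [← Complex.coe_smul, ← Complex.coe_smul, map_smul]
  rw [← h4]
  unfold conv
  have h6 := INV_d V (γ : SL(2, ℝ)) (fun w : ℍ => κ (tt (γ • z) w) • φ w)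
  rw [← h6]
  refine integral_congr_ae (Filter.Eventually.of_forall fun w => ?_)
  show κ (tt (γ • z) ((γ : SL(2, ℝ)) • w)) • φ ((γ : SL(2, ℝ)) • w) = κ (tt z w) • ρ γ (φ w)
  have e1 : tt ((γ : SL(2, ℝ)) • z) ((γ : SL(2, ℝ)) • w) = tt z w := TTT.2.2.2.1 (γ : SL(2, ℝ)) z w
  have e2 : φ ((γ : SL(2, ℝ)) • w) = ρ γ (φ w) := hφ γ w
  rw [e2]
  congr 2

/-- Cauchy-Schwarz on a set of finite measure -/
theorem LIQ_cs {g : ℍ → ℝ} {K : Set ℍ} (hK : volume K < ⊤) (i1 : IntegrableOn g K) (i2 : IntegrableOn (fun v => g v ^ 2) K) :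
    (∫ v in K, g v) ^ 2 ≤ (volume K).toReal * ∫ v in K, g v ^ 2 := by
  have i0 : IntegrableOn (fun _ : ℍ => (1 : ℝ)) K := by
    rw [integrableOn_const_iff]
    exact Or.inr hK
  have h : ∀ s : ℝ, 0 ≤ (volume K).toReal * (s * s) + (-2 * ∫ v in K, g v) * s + ∫ v in K, g v ^ 2 := by
    intro s
    have j1 : IntegrableOn (fun _ : ℍ => s * s * (1 : ℝ)) K := i0.const_mul _
    have j2 : IntegrableOn (fun v => 2 * s * g v) K := i1.const_mul _
    have j3 : IntegrableOn (fun v => s * s * (1 : ℝ) - 2 * s * g v) K := j1.sub j2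
    have e0 : ∫ _ in K, (1 : ℝ) = (volume K).toReal := by
      rw [setIntegral_const, smul_eq_mul, mul_one]
      rfl
    have h1 : (volume K).toReal * (s * s) + (-2 * ∫ v in K, g v) * s + ∫ v in K, g v ^ 2 =
        ∫ v in K, ((s * s * (1 : ℝ) - 2 * s * g v) + g v ^ 2) := by
      rw [integral_add j3 i2, integral_sub j1 j2, integral_const_mul, integral_const_mul, e0]
      ring
    rw [h1]
    refine integral_nonneg fun v => ?_
    have h2 : s * s * (1 : ℝ) - 2 * s * g v + g v ^ 2 = (g v - s) ^ 2 := by ring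
    show 0 ≤ s * s * (1 : ℝ) - 2 * s * g v + g v ^ 2
    rw [h2]
    exact sq_nonneg _
  have h3 := discrim_le_zero h
  unfold discrim at h3
  nlinarith

/-- a compact set is covered by boundedly many translates of the fundamental domain -/
theorem LIQ_cov {Γ : Subgroup SL(2, ℝ)} {F : Set ℍ} (hΓ : SurfaceGroup Γ) (hF : NiceDom Γ F) {K : Set ℍ} (hK : IsCompact K) :
    ∃ n : ℕ, ∀ (g : ℍ → ℝ) (m : ℝ), Measurable g → (∀ v, 0 ≤ g v) → (∀ v, g v ≤ m) → (∀ (γ : Γ) (v : ℍ), g (γ • v) = g v) →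
      ∫ v in K, g v ≤ n * ∫ v in F, g v := by
  classical
  obtain ⟨K₀, hK₀, hFK⟩ := hF.rel
  obtain ⟨-, -, -, hvol, -, hfin⟩ := DOB INV Γ F hΓ hF
  have hSf := hfin K K₀ hK hK₀
  refine ⟨hSf.toFinset.card, fun g m hg hg0 hgm hinv => ?_⟩
  have hmF : MeasurableSet F := hF.meas
  set G : ℍ → ℝ := F.indicator g with hG
  have hGi : Integrable G := by
    rw [hG, integrable_indicator_iff hmF]
    refine Measure.integrableOn_of_bounded hvol.ne hg.aestronglyMeasurable (M := m) (Eventually.of_forall fun v => ?_)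
    rw [Real.norm_of_nonneg (hg0 v)]
    exact hgm v
  haveI := INV_a
  have hGγ : ∀ γ : Γ, Integrable fun v : ℍ => G ((γ : SL(2, ℝ)) • v) := fun γ =>
    (measurePreserving_smul (γ : SL(2, ℝ)) (volume : Measure ℍ)).integrable_comp_of_integrable hGi
  have h1 : ∫ v in K, g v ≤ ∫ v : ℍ, ∑ γ ∈ hSf.toFinset, G ((γ : SL(2, ℝ)) • v) := by
    rw [← integral_indicator hK.measurableSet]
    refine integral_mono_of_nonneg (Eventually.of_forall fun v => ?_) (integrable_finsetSum _ fun γ _ => hGγ γ)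
      (Eventually.of_forall fun v => ?_)
    · exact indicator_nonneg (fun v _ => hg0 v) v
    · have hGnn : ∀ u, 0 ≤ G u := fun u => indicator_nonneg (fun v _ => hg0 v) u
      show K.indicator g v ≤ ∑ γ ∈ hSf.toFinset, G ((γ : SL(2, ℝ)) • v)
      by_cases hv : v ∈ K
      · rw [indicator_of_mem hv]
        obtain ⟨γ, hγ, -⟩ := hF.uniq v
        have hγS : γ ∈ hSf.toFinset := by
          rw [Set.Finite.mem_toFinset]
          exact ⟨v, hv, hFK hγ⟩
        refine le_trans (le_of_eq ?_) (Finset.single_le_sum (f := fun γ : Γ => G ((γ : SL(2, ℝ)) • v)) (fun γ _ => hGnn _) hγS)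
        show g v = G ((γ : SL(2, ℝ)) • v)
        have e1 : G ((γ : SL(2, ℝ)) • v) = g ((γ : SL(2, ℝ)) • v) := indicator_of_mem (show (γ : SL(2, ℝ)) • v ∈ F from hγ) g
        rw [e1]
        exact (hinv γ v).symm
      · rw [indicator_of_notMem hv]
        exact Finset.sum_nonneg fun γ _ => hGnn _
  refine h1.trans (le_of_eq ?_)
  rw [integral_finsetSum _ fun γ _ => hGγ γ]
  have h2 : ∀ γ ∈ hSf.toFinset, ∫ v : ℍ, G ((γ : SL(2, ℝ)) • v) = ∫ v in F, g v := by
    intro γ _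
    rw [INV_d ℝ (γ : SL(2, ℝ)) G, hG, integral_indicator hmF]
  rw [Finset.sum_congr rfl h2, Finset.sum_const, nsmul_eq_mul]

theorem LIQ : LIQ_stmt := by
  intro κ₁ C hBF Γ F hΓ hF
  obtain ⟨B, R, hB0, hR0, hker⟩ := LIQ_ker hBF
  obtain ⟨K, hK, hFK⟩ := hF.rel
  have hK' : IsCompact (Metric.cthickening R K) := hK.cthickening
  obtain ⟨n, hn⟩ := LIQ_cov hΓ hF hK'
  set V₀ : ℝ := (volume (Metric.cthickening R K)).toReal with hV₀
  have hV0 : 0 ≤ V₀ := ENNReal.toReal_nonneg
  refine ⟨1 + B * √(V₀ * n), by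
    have := Real.sqrt_nonneg (V₀ * n)
    have := mul_nonneg hB0 this
    linarith, ?_⟩
  intro V _ _ _ ρ φ η z w hη hη1 hφ hzw
  obtain ⟨m, hm⟩ := hφ.bdd
  have hm0 : 0 ≤ m := (norm_nonneg _).trans (hm z)
  have hnm : Measurable fun v : ℍ => ‖φ v‖ := hφ.meas.norm.measurable
  -- the case `z ∈ F`
  have key : ∀ z w : ℍ, z ∈ F → dist z w ≤ 1 → ‖conv (fm κ₁ η) φ z - conv (fm κ₁ η) φ w‖ ≤
      (1 + B * √(V₀ * n)) / η ^ 2 * dist z w * √(∫ v in F, ‖φ v‖ ^ 2) := by
    intro z w hz hzw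
    have hrk : RK (fm κ₁ η) := hBF.fam.rk η hη
    have hint : ∀ x : ℍ, Integrable fun v : ℍ => fm κ₁ η (tt x v) • φ v := by
      intro x
      have hcx : Continuous fun v : ℍ => fm κ₁ η (tt x v) :=
        hrk.smooth.continuous.comp (TTT.2.2.2.2.1.comp (Continuous.prodMk_right x))
      have hcs : HasCompactSupport fun v : ℍ => fm κ₁ η (tt x v) := by
        obtain ⟨s, hs⟩ := hrk.supp
        obtain ⟨R', -, hR'⟩ := TTT.2.2.2.2.2.1 s
        refine HasCompactSupport.intro (isCompact_closedBall x R') fun v hv => ?_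
        by_contra hc
        refine hv ?_
        rw [Metric.mem_closedBall, dist_comm]
        refine hR' x v ?_
        by_contra hc2
        push Not at hc2
        exact hc (hs _ hc2.le)
      have hi : Integrable fun v : ℍ => fm κ₁ η (tt x v) := hcx.integrable_of_hasCompactSupport hcs
      exact hi.smul_bdd m hφ.meas.aestronglyMeasurable (Eventually.of_forall hm)
    have e1 : conv (fm κ₁ η) φ z - conv (fm κ₁ η) φ w = ∫ v : ℍ, (fm κ₁ η (tt z v) - fm κ₁ η (tt w v)) • φ v := by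
      unfold conv
      rw [← integral_sub (hint z) (hint w)]
      refine integral_congr_ae (Eventually.of_forall fun v => ?_)
      show _ = (fm κ₁ η (tt z v) - fm κ₁ η (tt w v)) • φ v
      rw [sub_smul]
    have hvol : volume (Metric.cthickening R K) < ⊤ := hK'.measure_lt_top
    have i1 : IntegrableOn (fun v => ‖φ v‖) (Metric.cthickening R K) :=
      Measure.integrableOn_of_bounded hvol.ne hnm.aestronglyMeasurable (M := m) (Eventually.of_forall fun v => by
        rw [norm_norm]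
        exact hm v)
    have i2 : IntegrableOn (fun v => ‖φ v‖ ^ 2) (Metric.cthickening R K) :=
      Measure.integrableOn_of_bounded hvol.ne (hnm.pow_const 2).aestronglyMeasurable (M := m ^ 2)
        (Eventually.of_forall fun v => by
          rw [norm_pow, norm_norm]
          exact pow_le_pow_left₀ (norm_nonneg _) (hm v) 2)
    set D : ℝ := B / η ^ 2 * dist z w with hD
    have hD0 : 0 ≤ D := by
      have := dist_nonneg (x := z) (y := w)
      positivity
    have e2 : ‖conv (fm κ₁ η) φ z - conv (fm κ₁ η) φ w‖ ≤ D * ∫ v in Metric.cthickening R K, ‖φ v‖ := by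
      rw [e1, ← integral_const_mul, ← integral_indicator hK'.measurableSet]
      refine (norm_integral_le_integral_norm _).trans ?_
      refine integral_mono_of_nonneg (Eventually.of_forall fun v => norm_nonneg _) ?_ (Eventually.of_forall fun v => ?_)
      · rw [integrable_indicator_iff hK'.measurableSet]
        exact i1.const_mul D
      · show ‖(fm κ₁ η (tt z v) - fm κ₁ η (tt w v)) • φ v‖ ≤ (Metric.cthickening R K).indicator (fun v => D * ‖φ v‖) v
        rw [norm_smul, Real.norm_eq_abs]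
        have h3 := hker η z w v hη hη1 hzw
        by_cases hv : v ∈ Metric.closedBall z R
        · rw [if_pos hv] at h3
          rw [indicator_of_mem (Metric.closedBall_subset_cthickening (hFK hz) R hv)]
          exact mul_le_mul_of_nonneg_right h3 (norm_nonneg _)
        · rw [if_neg hv] at h3
          have h4 : |fm κ₁ η (tt z v) - fm κ₁ η (tt w v)| = 0 := le_antisymm h3 (abs_nonneg _)
          rw [h4, zero_mul]
          exact indicator_nonneg (fun v _ => mul_nonneg hD0 (norm_nonneg _)) v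
    have e3 := LIQ_cs hvol i1 i2
    have e4 := hn (fun v => ‖φ v‖ ^ 2) (m ^ 2) (hnm.pow_const 2) (fun v => sq_nonneg _)
      (fun v => pow_le_pow_left₀ (norm_nonneg _) (hm v) 2) (fun γ v => by
        show ‖φ (γ • v)‖ ^ 2 = ‖φ v‖ ^ 2
        rw [hφ.eqv, LinearIsometryEquiv.norm_map])
    have hI0 : 0 ≤ ∫ v in F, ‖φ v‖ ^ 2 := integral_nonneg fun v => sq_nonneg _
    have e5 : ∫ v in Metric.cthickening R K, ‖φ v‖ ≤ √(V₀ * n) * √(∫ v in F, ‖φ v‖ ^ 2) := by
      rw [← Real.sqrt_mul (by positivity)]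
      apply Real.le_sqrt_of_sq_le
      refine e3.trans ?_
      rw [mul_assoc]
      exact mul_le_mul_of_nonneg_left e4 hV0
    calc ‖conv (fm κ₁ η) φ z - conv (fm κ₁ η) φ w‖ ≤ D * ∫ v in Metric.cthickening R K, ‖φ v‖ := e2
      _ ≤ D * (√(V₀ * n) * √(∫ v in F, ‖φ v‖ ^ 2)) := mul_le_mul_of_nonneg_left e5 hD0
      _ = B * √(V₀ * n) / η ^ 2 * dist z w * √(∫ v in F, ‖φ v‖ ^ 2) := by
          rw [hD]
          ring
      _ ≤ (1 + B * √(V₀ * n)) / η ^ 2 * dist z w * √(∫ v in F, ‖φ v‖ ^ 2) := by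
          refine mul_le_mul_of_nonneg_right (mul_le_mul_of_nonneg_right ?_ dist_nonneg) (Real.sqrt_nonneg _)
          exact div_le_div_of_nonneg_right (by linarith) (by positivity)
  obtain ⟨γ, hγ, -⟩ := hF.uniq z
  have hd : dist (γ • z) (γ • w) = dist z w := dist_smul (γ : SL(2, ℝ)) z w
  have h1 := key (γ • z) (γ • w) hγ (by rw [hd]; exact hzw)
  rw [hd, LIQ_eqv ρ (fm κ₁ η) φ hφ.eqv γ z, LIQ_eqv ρ (fm κ₁ η) φ hφ.eqv γ w, ← map_sub, LinearIsometryEquiv.norm_map] at h1
  exact h1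

end Pool.Agent.QX
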