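import Pool.Agent.helper37.QX.SpecG

/-!
# qg:EXW
-/

set_option autoImplicit false

open scoped MatrixGroups ContDiff Topology
open MeasureTheory ProbabilityTheory Filter Set Polynomial
open Pool.Agent.QU Pool.Agent.RP

namespace Pool.Agent.QX

theorem EXW (hEXL : EXL_stmt) (hTTS : TTS_stmt) (hJZ : JZ_stmt) (hVAN0 : VAN0_stmt) (hULW : ULW_stmt)
    (hALT : ALT_stmt) : EXW_stmt := by
  obtain ⟨c, hc0, hc2, hJ⟩ := hJZ
  refine ⟨c, 8, hc0, hc2, by norm_num, fun w => ?_⟩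
  obtain ⟨hA1, hA2, hA3⟩ := hALT w
  obtain ⟨f, hf1, hf2, hf3, hf4⟩ := hEXL c hc0.le (ltr w) []
  refine ⟨f, hf1, ?_, ?_, ?_⟩
  · refine hf2.trans ?_
    have h1 : (0 : ℝ) ≤ c * ((ltr w).length : ℝ) := by positivity
    have h2 : TT ([] : Wd).length (c * ((ltr w).length : ℝ)) = Real.exp ((c * ((ltr w).length : ℝ)) ^ 2 / 2) :=
      hTTS.2.2.2 _ h1
    rw [h2, Real.exp_le_exp, hA2]
    push_cast
    have h3 : (0 : ℝ) ≤ (w.norm : ℝ) := Nat.cast_nonneg _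
    have h4 : c ^ 2 ≤ 4 := by nlinarith
    have h5 : (c * (2 * (w.norm : ℝ))) ^ 2 / 2 = c ^ 2 * (2 * (w.norm : ℝ) ^ 2) := by ring
    rw [h5]
    have h6 : c ^ 2 * (2 * (w.norm : ℝ) ^ 2) ≤ 4 * (2 * (w.norm : ℝ) ^ 2) :=
      mul_le_mul_of_nonneg_right h4 (by positivity)
    nlinarith
  · rw [hf3]
    by_cases hw : w = 1
    · rw [if_pos hw, hA3.2 hw]
      show e0 [] = 1
      simp [e0]
    · rw [if_neg hw]
      exact hVAN0 c hJ (ltr w) (fun h => hw (hA3.1 h)) hA1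
  · intro N hN
    rw [← hf4 N hN, ← MeasureTheory.integral_const_mul]
    refine MeasureTheory.integral_congr_ae (Filter.Eventually.of_forall fun x => ?_)
    show Matrix.trace ((UG c x w : Matrix.unitaryGroup (Fin N) ℂ) : Matrix (Fin N) (Fin N) ℂ) =
      (N : ℂ) * ntr (XW x [] * EL c x (ltr w))
    rw [hULW N c x w]
    have h1 : XW x [] = (1 : Matrix (Fin N) (Fin N) ℂ) := rfl
    have hN0 : (N : ℂ) ≠ 0 := by
      exact_mod_cast (by omega : N ≠ 0)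
    rw [h1, Matrix.one_mul]
    unfold ntr
    rw [← mul_assoc, mul_inv_cancel₀ hN0, one_mul]

end Pool.Agent.QX
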